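import Pool.Agent.Lib.MP_8535cc_co.H51.Final

/-!
# An explicit constant in the lower bound for the unique-triangle problem
-/

namespace Pool.Agent.Results.MP_8535cc_co.Constant

/-- Each edge of G belongs to exactly one triangle of G: for adjacent u and v there is exactly one
vertex w adjacent to both. -/
def UniqueTriangle {V : Type*} (G : SimpleGraph V) : Prop :=
  ∀ u v, G.Adj u v → ∃! w, G.Adj u w ∧ G.Adj v w

/-- The largest number of edges of an n-vertex graph with the unique-triangle property. -/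
noncomputable def f (n : ℕ) : ℕ :=
  sSup {m | ∃ G : SimpleGraph (Fin n), UniqueTriangle G ∧ G.edgeSet.ncard = m}

/-- The set defining f is bounded above, so the supremum is a maximum. -/
theorem bddAbove_edges (n : ℕ) :
    BddAbove {m | ∃ G : SimpleGraph (Fin n), UniqueTriangle G ∧ G.edgeSet.ncard = m} := by
  refine ⟨(Set.univ : Set (Sym2 (Fin n))).ncard, ?_⟩
  rintro m ⟨G, _, rfl⟩
  exact Set.ncard_le_ncard (Set.subset_univ _) (Set.toFinite _)

/-- For every positive ε and all large n,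
f(n) is at least n^2 exp(-(2 sqrt(log(4/3)) + ε) sqrt(log n)). -/
theorem result :
    ∀ ε : ℝ, 0 < ε → ∃ n₀ : ℕ, ∀ n : ℕ, n₀ ≤ n →
      (n : ℝ) ^ 2 * Real.exp (-((2 * Real.sqrt (Real.log (4 / 3)) + ε) *
        Real.sqrt (Real.log n))) ≤ (f n : ℝ) := by
  intro ε hε
  obtain ⟨n₀, h⟩ := Pool.Agent.Lib.MP_8535cc_co.main hε
  refine ⟨n₀, fun n hn => ?_⟩
  obtain ⟨G, hG, hGe⟩ := h n hn
  refine hGe.trans ?_
  have h1 : G.edgeSet.ncard ≤ f n := le_csSup (bddAbove_edges n) ⟨G, hG, rfl⟩
  exact_mod_cast h1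

end Pool.Agent.Results.MP_8535cc_co.Constant
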